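import Pool.Agent.W751.RV.Stm
import Pool.Agent.W327.RD.Dyn

/-!
Project RV (MP_8f2e1c_an), parts DETB and DETC: one trapping disc, around infinity or around zero.
-/

set_option autoImplicit false

open Polynomial Filter Topology MeasureTheory
open scoped OnePoint

namespace Pool.Agent.W469.RV.Det

open Pool.Agent.H762R2.Rt Pool.Agent.H462R2.AP
open Pool.Agent.Helper114.Herman Pool.Agent.Helper114.Konig
open Pool.Agent.W751.CD Pool.Agent.W751.RV

/-! ### the polynomials -/

theorem Q_eval {N : ℕ} (q : Fin N → ℂ) (w : ℂ) : (Q q).eval w = ∏ i, (1 - q i * w) := by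
  unfold Q
  rw [eval_prod]
  simp

theorem Q_natDegree {N : ℕ} (q : Fin N → ℂ) : (Q q).natDegree ≤ N := by
  unfold Q
  refine (natDegree_prod_le _ _).trans ?_
  refine (Finset.sum_le_card_nsmul _ _ 1 ?_).trans ?_
  · intro i _
    refine (natDegree_sub_le _ _).trans ?_
    rw [natDegree_one]
    exact max_le (Nat.zero_le _) ((natDegree_C_mul_le _ _).trans natDegree_X_le)
  · simp

theorem Q_ne {N : ℕ} (q : Fin N → ℂ) : Q q ≠ 0 := by
  intro h
  have h1 := Q_eval q 0
  rw [h] at h1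
  simp at h1

theorem hom_PQ {N : ℕ} (z : Fin N → ℂ) (x : ℂ) : hom (P z) N 1 x = (Q z).eval x := by
  rw [W327.RD.hom_P, Q_eval]
  rfl

theorem hom_QP {N : ℕ} (q : Fin N → ℂ) (x : ℂ) : hom (Q q) N 1 x = (P q).eval x := by
  have h1 : Continuous fun x : ℂ => hom (Q q) N 1 x := by
    unfold hom
    fun_prop
  have h2 : Continuous fun x : ℂ => (P q).eval x := (P q).continuous
  have h3 : Set.EqOn (fun x : ℂ => hom (Q q) N 1 x) (fun x : ℂ => (P q).eval x) {0}ᶜ := by
    intro x hx
    have hx' : x ≠ 0 := hx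
    simp only
    rw [hom_ne (Q_natDegree q) hx', W327.RD.P_eval, Q_eval]
    have h4 : x ^ N = ∏ _i : Fin N, x := by simp
    rw [h4, ← Finset.prod_mul_distrib]
    refine Finset.prod_congr rfl fun i _ => ?_
    field_simp
  exact congrFun (Continuous.ext_on (dense_compl_singleton 0) h1 h2 h3) x

theorem coprime_PQ {N : ℕ} {z q : Fin N → ℂ} (h : ∀ i j, z i * q j ≠ 1) :
    IsCoprime (P z) (Q q) := by
  unfold P Q
  refine IsCoprime.prod_left fun i _ => IsCoprime.prod_right fun j _ => ?_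
  have h1 : 1 - q j * z i ≠ 0 := by
    intro h2
    apply h i j
    linear_combination -h2
  refine ⟨C (q j * (1 - q j * z i)⁻¹), C ((1 - q j * z i)⁻¹), ?_⟩
  have e1 : C ((1 - q j * z i)⁻¹) * C (1 - q j * z i) = (1 : ℂ[X]) := by
    rw [← C_mul, inv_mul_cancel₀ h1, C_1]
  rw [C_mul]
  rw [C_sub, C_1, C_mul] at e1
  linear_combination e1

theorem norm_mul_lt {N : ℕ} {ρ σ : ℝ} {z q : Fin N → ℂ} (hρ : 0 < ρ) (hρσ : ρ * σ < 1)
    (hz : ∀ i, ‖z i‖ ≤ ρ) (hq : ∀ i, ‖q i‖ ≤ σ) (i j : Fin N) : z i * q j ≠ 1 := by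
  intro h
  have h1 : ‖z i * q j‖ = 1 := by rw [h, norm_one]
  rw [norm_mul] at h1
  have h2 : ‖z i‖ * ‖q j‖ ≤ ρ * σ := mul_le_mul (hz i) (hq j) (norm_nonneg _) hρ.le
  linarith

/-- the map in the two charts -/
theorem charts {N : ℕ} (hN : 1 ≤ N) {z q : Fin N → ℂ} {α : ℂ} (hα : α ≠ 0)
    (h : ∀ i j, z i * q j ≠ 1) : ∃ f : OnePoint ℂ → OnePoint ℂ, IsRat f (C α * P z) (Q q) ∧
      (∀ w : ℂ, f (ch false w) = pr ((C α * P z).eval w) ((Q q).eval w)) ∧
      ∀ x : ℂ, f (ch true x) = pr ((C α * Q z).eval x) ((P q).eval x) := by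
  have hCa : IsUnit (C α : ℂ[X]) := isUnit_C.2 hα.isUnit
  have hcop : IsCoprime (C α * P z) (Q q) :=
    (isCoprime_mul_unit_left_left hCa _ _).2 (coprime_PQ h)
  obtain ⟨f, hf, -⟩ := exists_isRat hcop (Q_ne q)
  have hdP : (C α * P z).natDegree = N := by
    rw [natDegree_C_mul hα, W327.RD.P_natDegree]
  have hD : N = max (C α * P z).natDegree (Q q).natDegree := by
    rw [hdP, max_eq_left (Q_natDegree q)]
  refine ⟨f, hf, fun w => ?_, fun x => ?_⟩
  · have e1 : ch false w = pr w 1 := by rw [ch_false, pr_one]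
    rw [e1, rat_formula hf hD hN (Or.inr one_ne_zero), hom_ne (le_of_eq hdP) one_ne_zero,
      hom_ne (Q_natDegree q) one_ne_zero]
    simp
  · have e1 : ch true x = pr 1 x := by
      simp only [ch_true]
      rw [← pr_one x, sinv_pr (Or.inr one_ne_zero)]
    rw [e1, rat_formula hf hD hN (Or.inl one_ne_zero), W327.RD.hom_C, hom_PQ, hom_QP]
    simp

/-! ### local injectivity -/

theorem pr_inj {n d : ℂ[X]} {x : ℂ}
    (h : (derivative n).eval x * d.eval x ≠ n.eval x * (derivative d).eval x) :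
    ∃ U ∈ 𝓝 x, Set.InjOn (fun y : ℂ => pr (n.eval y) (d.eval y)) U := by
  by_cases hd : d.eval x = 0
  · have hn : n.eval x ≠ 0 := by
      intro hn
      apply h
      rw [hd, hn, mul_zero, zero_mul]
    have hder := (d.hasStrictDerivAt x).fun_div (n.hasStrictDerivAt x) hn
    have hne : ((derivative d).eval x * n.eval x - d.eval x * (derivative n).eval x) /
        (n.eval x) ^ 2 ≠ 0 := by
      apply div_ne_zero _ (pow_ne_zero _ hn)
      intro h1
      apply h
      linear_combination -h1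
    obtain ⟨U, hU, hinj⟩ := injOn_of_deriv hder hne
    have hUQ : {y : ℂ | n.eval y ≠ 0} ∈ 𝓝 x :=
      (isOpen_ne_fun n.continuous continuous_const).mem_nhds hn
    refine ⟨_, inter_mem hU hUQ, ?_⟩
    rintro a ⟨ha, han⟩ b ⟨hb, hbn⟩ hab
    have han' : n.eval a ≠ 0 := han
    have hbn' : n.eval b ≠ 0 := hbn
    simp only at hab
    have h2 := congrArg sinv hab
    rw [sinv_pr (Or.inl han'), sinv_pr (Or.inl hbn'), pr_ne han', pr_ne hbn',
      OnePoint.coe_eq_coe] at h2
    exact hinj ha hb h2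
  · have hder := (n.hasStrictDerivAt x).fun_div (d.hasStrictDerivAt x) hd
    have hne : ((derivative n).eval x * d.eval x - n.eval x * (derivative d).eval x) /
        (d.eval x) ^ 2 ≠ 0 := by
      apply div_ne_zero _ (pow_ne_zero _ hd)
      intro h1
      apply h
      linear_combination h1
    obtain ⟨U, hU, hinj⟩ := injOn_of_deriv hder hne
    have hUQ : {y : ℂ | d.eval y ≠ 0} ∈ 𝓝 x :=
      (isOpen_ne_fun d.continuous continuous_const).mem_nhds hd
    refine ⟨_, inter_mem hU hUQ, ?_⟩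
    rintro a ⟨ha, han⟩ b ⟨hb, hbn⟩ hab
    have han' : d.eval a ≠ 0 := han
    have hbn' : d.eval b ≠ 0 := hbn
    simp only at hab
    rw [pr_ne han', pr_ne hbn', OnePoint.coe_eq_coe] at hab
    exact hinj ha hb hab

theorem loc_inj {f : OnePoint ℂ → OnePoint ℂ} {κ : Bool} {n d : ℂ[X]}
    (hf : ∀ x : ℂ, f (ch κ x) = pr (n.eval x) (d.eval x)) {x : ℂ}
    (h : (derivative n).eval x * d.eval x ≠ n.eval x * (derivative d).eval x) :
    ∃ U ∈ 𝓝 (ch κ x), Set.InjOn f U := by
  obtain ⟨U, hU, hinj⟩ := pr_inj h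
  refine ⟨ch κ '' U, (isOpenMap_ch κ).image_mem_nhds hU, ?_⟩
  rintro _ ⟨a, ha, rfl⟩ _ ⟨b, hb, rfl⟩ hab
  rw [hf, hf] at hab
  rw [hinj ha hb hab]

/-! ### the trap -/

theorem trap {f : OnePoint ℂ → OnePoint ℂ} (hfc : Continuous f) {κ : Bool} {a b : ℂ[X]} {t : ℝ}
    (ht : 0 < t) (hf : ∀ x : ℂ, b.eval x ≠ 0 → f (ch κ x) = ch κ (a.eval x / b.eval x))
    (h : ∀ x : ℂ, ‖x‖ ≤ t → ‖a.eval x‖ < t / 4 * ‖b.eval x‖) {x : ℂ} (hx : ‖x‖ ≤ t) :
    Sinks f (ch κ x) := by
  have hb : ∀ x : ℂ, ‖x‖ ≤ t → b.eval x ≠ 0 := by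
    intro x hx h0
    have := h x hx
    rw [h0, norm_zero, mul_zero] at this
    exact absurd this (not_lt.2 (norm_nonneg _))
  have hlt : ∀ x : ℂ, ‖x‖ ≤ t → ‖a.eval x / b.eval x‖ < t / 4 := by
    intro x hx
    rw [norm_div, div_lt_iff₀ (norm_pos_iff.2 (hb x hx))]
    exact h x hx
  have htc : (t : ℂ) ≠ 0 := by exact_mod_cast ht.ne'
  obtain ⟨g, hg⟩ : ∃ g : ℂ → ℂ, g = fun y => a.eval ((t : ℂ) * y) / b.eval ((t : ℂ) * y) / (t : ℂ) := ⟨_, rfl⟩
  have hnrm : ∀ y : ℂ, ‖y‖ ≤ 1 → ‖(t : ℂ) * y‖ ≤ t := by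
    intro y hy
    rw [norm_mul, Complex.norm_real, Real.norm_eq_abs, abs_of_pos ht]
    nlinarith
  have hgd : ∀ y ∈ Metric.closedBall (0 : ℂ) 1, DifferentiableAt ℂ g y := by
    intro y hy
    rw [mem_closedBall_zero_iff] at hy
    rw [hg]
    have hl : DifferentiableAt ℂ (fun y : ℂ => (t : ℂ) * y) y := differentiableAt_id.const_mul _
    exact ((a.differentiable _).comp y hl).fun_div ((b.differentiable _).comp y hl)
      (hb _ (hnrm y hy)) |>.div_const _
  have hgb : ∀ y ∈ Metric.closedBall (0 : ℂ) 1, ‖g y‖ < 1 / 4 := by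
    intro y hy
    rw [mem_closedBall_zero_iff] at hy
    have := hlt _ (hnrm y hy)
    rw [hg]
    simp only
    rw [norm_div (_ / _), Complex.norm_real, Real.norm_eq_abs, abs_of_pos ht, div_lt_iff₀ ht]
    linarith
  have hhalf : ∀ y : ℂ, ‖y‖ ≤ 1 / 2 → y ∈ Metric.closedBall (0 : ℂ) 1 := by
    intro y hy
    rw [mem_closedBall_zero_iff]
    linarith
  have hS : ∀ y : ℂ, ‖y‖ ≤ 1 / 2 → Sinks f (ch κ (t * y)) := by
    intro y hy
    have hψc : Continuous (fun y : ℂ => ch κ (t * y)) :=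
      (continuous_ch κ).comp (continuous_const.mul continuous_id)
    have hψo : IsOpenMap (fun y : ℂ => ch κ (t * y)) :=
      (isOpenMap_ch κ).comp (Homeomorph.mulLeft₀ (t : ℂ) htc).isOpenMap
    exact two_charts' (ψ := fun _ y => ch κ (t * y)) (σ := fun _ => true) (τ := fun _ => 1)
      (h := fun _ => g) (r := 1 / 2) (i := true) hfc (by norm_num) (fun _ => one_pos)
      (fun _ => hψc) (fun _ => hψo)
      (fun _ y hy => by
        rw [Function.iterate_one, hf _ (hb _ (hnrm y (by linarith))), hg]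
        simp only
        rw [mul_div_cancel₀ _ htc])
      (fun _ y hy => (hgb y (hhalf y hy)).trans (by norm_num))
      (fun _ x y hx hy => W327.RD.cauchy_lip hgd hgb hx hy) hy
  apply sinks_of_image hfc
  rw [hf x (hb x hx)]
  have e1 : a.eval x / b.eval x = t * (a.eval x / b.eval x / t) := by
    rw [mul_div_cancel₀ _ htc]
  rw [e1]
  apply hS
  rw [norm_div (_ / _), Complex.norm_real, Real.norm_eq_abs, abs_of_pos ht, div_le_iff₀ ht]
  have := hlt x hx
  linarith

theorem ch_inv {x : ℂ} (hx : x ≠ 0) (κ : Bool) : ch κ x = ch (!κ) x⁻¹ := by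
  cases κ
  · simp only [Bool.not_false, ch_false, ch_true]
    rw [sinv_coe (inv_ne_zero hx), inv_inv]
  · simp only [Bool.not_true, ch_false, ch_true]
    rw [sinv_coe hx]

theorem pr_false {u v : ℂ} (hv : v ≠ 0) : pr u v = ch false (u / v) := by
  rw [pr_ne hv, ch_false]

theorem pr_true {u v : ℂ} (hu : u ≠ 0) : pr u v = ch true (v / u) := by
  simp only [ch_true]
  rw [← pr_ne hu, sinv_pr (Or.inr hu)]

theorem inv_le {x : ℂ} {σ : ℝ} (h : 1 ≤ ‖x‖ * σ) : x ≠ 0 ∧ ‖x⁻¹‖ ≤ σ := by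
  have h0 : x ≠ 0 := by
    intro h0
    rw [h0, norm_zero, zero_mul] at h
    linarith
  have hx : 0 < ‖x‖ := norm_pos_iff.2 h0
  refine ⟨h0, ?_⟩
  rw [norm_inv, inv_le_iff_one_le_mul₀ hx]
  linarith

theorem detb : S_DETB := by
  intro hW N ρ σ t z q α hN hρ hσ hρσ hz hq hα hσt h1 h2
  have ht : 0 < t := hσ.trans_le hσt
  obtain ⟨f, hf, hf0, hf1⟩ := charts hN hα (norm_mul_lt hρ hρσ hz hq)
  refine ⟨hf.cop, f, hf.cont, hf.eval, ?_⟩
  have hT : ∀ x : ℂ, ‖x‖ ≤ t → Sinks f (ch true x) := by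
    intro x hx
    refine trap hf.cont (κ := true) (a := P q) (b := C α * Q z) ht (fun x hb => ?_)
      (fun x hx => ?_) hx
    · rw [hf1, pr_true hb]
    · rw [eval_mul, eval_C]
      exact h1 x hx
  intro c hnot
  induction c using OnePoint.rec with
  | infty =>
    have e1 : ch true 0 = ∞ := by simp [ch, sinv_zero]
    rw [← e1]
    exact hT 0 (by rw [norm_zero]; exact ht.le)
  | coe w =>
    have ew : ch false w = (w : OnePoint ℂ) := by rw [ch_false]
    rw [← ew] at hnot ⊢
    by_cases hcr : Crit z q w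
    · by_cases hw1 : ‖w‖ ≤ ρ
      · have h3 := h2 w hw1 hcr
        have h4 : α * (P z).eval w ≠ 0 := by
          intro h0
          rw [h0, norm_zero, mul_zero] at h3
          exact absurd h3 (not_lt.2 (norm_nonneg _))
        have h5 : (C α * P z).eval w ≠ 0 := by
          rw [eval_mul, eval_C]
          exact h4
        apply sinks_of_image hf.cont
        rw [hf0, pr_true h5]
        apply hT
        rw [norm_div, div_le_iff₀ (norm_pos_iff.2 h5), eval_mul, eval_C]
        have := norm_nonneg (α * (P z).eval w)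
        nlinarith
      · by_cases hw2 : ‖w‖ * σ < 1
        · exact absurd hcr (hW N ρ σ z q hN hρ hσ hρσ hz hq w (not_le.1 hw1) hw2)
        · obtain ⟨h0, h6⟩ := inv_le (not_lt.1 hw2)
          rw [ch_inv h0]
          exact hT _ (h6.trans hσt)
    · exfalso
      apply hnot
      apply loc_inj hf0
      intro h6
      apply hcr
      unfold Crit
      rw [derivative_C_mul, eval_mul, eval_mul, eval_C] at h6
      have h7 : α * ((derivative (P z)).eval w * (Q q).eval w) =
          α * ((P z).eval w * (derivative (Q q)).eval w) := by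
        linear_combination h6
      exact mul_left_cancel₀ hα h7

theorem detc : S_DETC := by
  intro hW N ρ σ s z q α hN hρ hσ hρσ hz hq hα hρs h1 h2
  have hs : 0 < s := hρ.trans_le hρs
  obtain ⟨f, hf, hf0, hf1⟩ := charts hN hα (norm_mul_lt hρ hρσ hz hq)
  refine ⟨hf.cop, f, hf.cont, hf.eval, ?_⟩
  have hT : ∀ x : ℂ, ‖x‖ ≤ s → Sinks f (ch false x) := by
    intro x hx
    refine trap hf.cont (κ := false) (a := C α * P z) (b := Q q) hs (fun x hb => ?_)
      (fun x hx => ?_) hx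
    · rw [hf0, pr_false hb]
    · rw [eval_mul, eval_C]
      exact h1 x hx
  -- every point is `0` or in the chart at infinity
  have key : ∀ x : ℂ, (¬ ∃ U ∈ 𝓝 (ch true x), Set.InjOn f U) → Sinks f (ch true x) := by
    intro x hnot
    by_cases hcr : Crit q z x
    · by_cases hw1 : ‖x‖ ≤ σ
      · have h3 := h2 x hw1 hcr
        have h4 : (P q).eval x ≠ 0 := by
          intro h0
          rw [h0, norm_zero, mul_zero] at h3
          exact absurd h3 (not_lt.2 (norm_nonneg _))
        apply sinks_of_image hf.cont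
        rw [hf1, pr_false h4]
        apply hT
        rw [norm_div, div_le_iff₀ (norm_pos_iff.2 h4), eval_mul, eval_C]
        have := norm_nonneg ((P q).eval x)
        nlinarith
      · by_cases hw2 : ‖x‖ * ρ < 1
        · exact absurd hcr (hW N σ ρ q z hN hσ hρ (by rw [mul_comm]; exact hρσ) hq hz x
            (not_le.1 hw1) hw2)
        · obtain ⟨h0, h6⟩ := inv_le (not_lt.1 hw2)
          rw [ch_inv h0]
          exact hT _ (h6.trans hρs)
    · exfalso
      apply hnot
      apply loc_inj hf1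
      intro h6
      apply hcr
      unfold Crit
      rw [derivative_C_mul, eval_mul, eval_mul, eval_C] at h6
      have h7 : α * ((derivative (P q)).eval x * (Q z).eval x) =
          α * ((P q).eval x * (derivative (Q z)).eval x) := by
        linear_combination -h6
      exact mul_left_cancel₀ hα h7
  intro c hnot
  induction c using OnePoint.rec with
  | infty =>
    have e1 : ch true 0 = ∞ := by simp [ch, sinv_zero]
    rw [← e1] at hnot ⊢
    exact key 0 hnot
  | coe w =>
    have ew : ch false w = (w : OnePoint ℂ) := by rw [ch_false]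
    rw [← ew] at hnot ⊢
    by_cases hw : w = 0
    · rw [hw]
      exact hT 0 (by rw [norm_zero]; exact hs.le)
    · rw [ch_inv hw] at hnot ⊢
      exact key _ hnot

end Pool.Agent.W469.RV.Det
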